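import Pool.Agent.MP_8be872_ag.H63.LocA
import Pool.Agent.MP_8be872_ag.H63.SpecC

/-! Restriction to the slice: general facts on substitution operators. -/

namespace Pool.Agent.MP_8be872_ag.H57

open Finset H38 H56 H63 MvPolynomial
open scoped Matrix

section Abs

variable {E O : Type} [Fintype E] [Fintype O] [DecidableEq E] [DecidableEq O]
  (π : MvPolynomial E ℂ →ₐ[ℂ] MvPolynomial E ℂ)

/-- Substitution in the coefficients. -/
noncomputable def Rs : Module.End ℂ (Sp E O) := π.toLinearMap.compLeft _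

/-- The images of the generators. -/
noncomputable def rh : E ⊕ O → Module.End ℂ (Sp E O)
  | .inl e => mul (π (X e))
  | .inr o => gn (.inr o)

omit [Fintype E] [Fintype O] [DecidableEq E] [DecidableEq O] in
theorem Rs_apply (x : Sp E O) (S : Finset O) : Rs π x S = π (x S) := rfl

omit [Fintype E] [Fintype O] [DecidableEq E] [DecidableEq O] in
theorem Rs_mul (p : MvPolynomial E ℂ) :
    (Rs π * mul p : Module.End ℂ (Sp E O)) = mul (π p) * Rs π :=
  LinearMap.ext fun x => funext fun S => map_mul π p (x S)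

omit [Fintype E] [DecidableEq E] in
theorem Rs_gn (g : E ⊕ O) : (Rs π * gn g : Module.End ℂ (Sp E O)) = rh π g * Rs π := by
  rcases g with e | o
  · exact Rs_mul π _
  · exact H29.compLeft_mul_wedge _ o

omit [Fintype E] [Fintype O] [DecidableEq E] in
theorem Rs_pol (F : MvPolynomial E ℂ) : Rs π (pol F : Sp E O) = pol (π F) := by
  funext S
  rw [Rs_apply, pol, pol, Pi.single_apply, Pi.single_apply]
  split_ifs <;> simp

omit [Fintype E] [Fintype O] [DecidableEq E] in
theorem Rs_one : Rs π (one : Sp E O) = one := by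
  have := Rs_pol (O := O) π 1
  rwa [map_one] at this

theorem rh_od (g : E ⊕ O) :
    (rh π g : Module.End ℂ (Sp E O)) ∈ words fun μ => od μ = g.isRight := by
  rcases g with e | o
  · exact mul_mem_even _
  · exact gn_mem_words (g := .inr o) (od_single _)

omit [Fintype E] [DecidableEq E] in
theorem Rs_dr (e₀ : E) (h : ∀ e, pderiv e₀ (π (X e)) = π (pderiv e₀ (X e))) :
    (Rs π * dr (.inl e₀) : Module.End ℂ (Sp E O)) = dr (.inl e₀) * Rs π := by
  refine LinearMap.ext fun x => funext fun S => ?_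
  change π (pderiv e₀ (x S)) = pderiv e₀ (π (x S))
  induction x S using MvPolynomial.induction_on with
  | C a => simp [algHom_C]
  | add p q hp hq => simp only [map_add, hp, hq]
  | mul_X p e hp =>
    rw [map_mul π, Derivation.leibniz, Derivation.leibniz, h, ← hp]
    simp only [smul_eq_mul, map_add, map_mul]

/-- Conditions on the odd exponents are preserved. -/
theorem Rs_odd {P : (E ⊕ O → ℕ) → Prop} (h : ∀ S m m', P (ex S m) → P (ex S m')) {x : Sp E O}
    (hx : x ∈ mono P) : Rs π x ∈ mono P := by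
  refine mem_mono.2 fun S m hm => ?_
  have h1 : x S ≠ 0 := fun h => by simp [Rs_apply, h] at hm
  obtain ⟨m', hm'⟩ := ne_zero_iff.1 h1
  exact h S m' m (mem_mono.1 hx S m' hm')

omit [Fintype E] [DecidableEq E] in
theorem Rs_word (l : List (E ⊕ O)) :
    (Rs π * (l.map gn).prod : Module.End ℂ (Sp E O)) = (l.map (rh π)).prod * Rs π := by
  induction l with
  | nil => simp
  | cons g l ih =>
    rw [List.map_cons, List.prod_cons, List.map_cons, List.prod_cons, ← mul_assoc, Rs_gn,
      mul_assoc, ih, mul_assoc]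

theorem Rs_mem {A : E ⊕ O → Prop} (Rl : (E ⊕ O → ℕ) → (E ⊕ O → ℕ) → Prop) (h0 : Rl 0 0)
    (hadd : ∀ a b a' b', Rl a b → Rl a' b' → Rl (a + a') (b + b'))
    (hg : ∀ g, A g → (rh π g : Module.End ℂ (Sp E O)) ∈ words (Rl (Pi.single g 1)))
    {P P' : (E ⊕ O → ℕ) → Prop} (hA : ∀ μ, P μ → sup A μ) (h : ∀ μ ν, P μ → Rl μ ν → P' ν)
    {x : Sp E O} (hx : x ∈ mono P) : Rs π x ∈ mono P' := by
  have key : ∀ l : List (E ⊕ O), sup A (fun g => l.count g) →
      ((l.map (rh π)).prod : Module.End ℂ (Sp E O)) ∈ words (Rl fun g => l.count g) := by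
    intro l
    induction l with
    | nil => exact fun _ => one_mem_words h0
    | cons g l ih =>
      rw [count_consB, H63.sup_add, sup_single, List.map_cons, List.prod_cons]
      exact fun a => mul_mem_words (hg g a.1) (ih a.2) fun _ _ => hadd _ _ _ _
  refine map_mem_of_bas (fun S m a => ?_) hx
  obtain ⟨l, h1, h2⟩ := bas_eq_word S m
  rw [h2, ← Module.End.mul_apply, Rs_word, Module.End.mul_apply, Rs_one]
  rw [← h1] at a
  exact mono_le (fun ν => h _ ν a) (words_one_mem (key l (hA _ a)))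

theorem ker_ind {A : E ⊕ O → Prop} {Δ : Module.End ℂ (Sp E O)} (h1 : Δ one = 0)
    (h : ∀ g, A g → ∃ m, Δ * gn g = m * Δ) {x : Sp E O} (hx : x ∈ mono (sup A)) : Δ x = 0 :=
  mono_ind (C := LinearMap.ker Δ) h1 (fun g hg y _ hy => by
    obtain ⟨m, hm⟩ := h g hg
    rw [LinearMap.mem_ker] at hy ⊢
    rw [← Module.End.mul_apply, hm, Module.End.mul_apply, hy, map_zero]) hx

theorem vf_eig {δ : E ⊕ O → Module.End ℂ (Sp E O)} (hδ : ∀ g, δ g ∈ words fun _ => True)
    (F : MvPolynomial E ℂ) (s : ℂ) (h : vf δ (pol F) = s • pol F) :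
    vf δ * mul F = mul F * vf δ + s • mul F := by
  have h1 : vf δ * mul F - mul F * vf δ - s • mul F ∈ words fun _ : E ⊕ O → ℕ => True := by
    refine sub_mem ?_ (Submodule.smul_mem _ _ (mul_mem_true F))
    rw [vf_mul hδ]
    exact Submodule.sum_mem _ fun e _ => mul_mem_words (mul_mem_true _) (hδ _) fun _ _ _ _ => trivial
  have h2 := words_ext h1 (by
    rw [LinearMap.sub_apply, LinearMap.sub_apply, Module.End.mul_apply, Module.End.mul_apply,
      vf_one, map_zero, sub_zero, LinearMap.smul_apply, mul_one_eq, h, sub_self])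
  rw [sub_sub, sub_eq_zero] at h2
  exact h2

omit [Fintype E] [DecidableEq E] in
theorem euler_bas (e : E) (S : Finset O) (m : E →₀ ℕ) :
    gn (.inl e) (dr (.inl e) (bas S m : Sp E O)) = (m e : ℂ) • bas S m := by
  funext S'
  change X e * pderiv e ((bas S m : Sp E O) S') = (m e : ℂ) • (bas S m : Sp E O) S'
  rw [bas, Pi.single_apply]
  split_ifs
  · rw [X_mul_pderiv_monomial, Nat.cast_smul_eq_nsmul]
  · simp

omit [DecidableEq E] [DecidableEq O] in
theorem ws_congr {Γ : Type} [AddCommMonoid Γ] {c c' : E ⊕ O → Γ} {μ : E ⊕ O → ℕ}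
    (h : ∀ g, μ g ≠ 0 → c g = c' g) : ws c μ = ws c' μ :=
  sum_congr rfl fun g _ => by
    by_cases a : μ g = 0
    · simp [a]
    · rw [h g a]

end Abs

theorem Rs_rel {E O J : Type} [Fintype E] [Fintype O] [Fintype J] [DecidableEq E] [DecidableEq O]
    [DecidableEq J] (π : MvPolynomial (E ⊕ J) ℂ →ₐ[ℂ] MvPolynomial (E ⊕ J) ℂ)
    (hπ : ∀ j, π (X (.inr j)) = X (.inr j)) {f f' : J → MvPolynomial (E ⊕ J) ℂ} {A : Finset J}
    (h : ∀ j ∈ A, f' j = π (f j)) {x : Sp (E ⊕ J) (O ⊕ J)} (hA : x ∈ mono (pat A))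
    (hx : x ∈ rel f) : Rs π x ∈ rel f' := by
  have hA' : Rs π x ∈ mono (pat A) := Rs_odd π (fun _ _ _ a => a) hA
  refine (rel_congr (f' := fun j => π (f j)) h hA').2 (mem_rel.2 fun S => ?_)
  have := Ideal.mem_map_of_mem π (mem_rel.1 hx S)
  rw [Ideal.map_span] at this
  refine Ideal.span_mono ?_ this
  rintro _ ⟨_, ⟨j, a, rfl⟩, rfl⟩
  exact ⟨j, a, by rw [map_sub, map_mul, map_one, hπ]⟩

section Ring

variable {A : Type} [Ring A]

/-- Pairs intertwined by `r`. -/
def prS (r : A) : Subring (A × A) where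
  carrier := {m | r * m.1 = m.2 * r}
  mul_mem' {a b} ha hb := by
    change r * (a.1 * b.1) = a.2 * b.2 * r
    rw [← mul_assoc, show r * a.1 = a.2 * r from ha, mul_assoc, show r * b.1 = b.2 * r from hb,
      mul_assoc]
  one_mem' := by simp
  add_mem' {a b} ha hb := by
    change r * (a.1 + b.1) = (a.2 + b.2) * r
    rw [mul_add, add_mul, show r * a.1 = a.2 * r from ha, show r * b.1 = b.2 * r from hb]
  zero_mem' := by simp
  neg_mem' {a} ha := by
    change r * -a.1 = -a.2 * r
    rw [mul_neg, neg_mul, show r * a.1 = a.2 * r from ha]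

theorem phi_rel (hD : DSqStmt) {Q : Quiv} {N : Type} [Fintype N] (r : A)
    (Y Y' : Kd Q → Matrix N N A) (h : ∀ k p q, r * Y k p q = Y' k p q * r) (k : Kd Q) (p q : N) :
    r * Phi Q Y k p q = Phi Q Y' k p q * r := by
  let Z : Kd Q → Matrix N N (prS r) := fun k p q => ⟨(Y k p q, Y' k p q), h k p q⟩
  have h1 := congrFun (congrFun
    (hD.1 Q N (prS r) A ((RingHom.fst A A).comp (prS r).subtype) Z k) p) q
  have h2 := congrFun (congrFun
    (hD.1 Q N (prS r) A ((RingHom.snd A A).comp (prS r).subtype) Z k) p) q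
  exact (congrArg (r * ·) h1.symm).trans (Eq.trans (Phi Q Z k p q).2 (congrArg (· * r) h2))

theorem phi_aff {Q : Quiv} {N : Type} [Fintype N] (Y Y' : Kd Q → Matrix N N A)
    (c₀ : Matrix N N A) (h : ∀ k, k ≠ kc → Y' k = Y k) (hc : Y' kc = Y kc + c₀) (k : Kd Q) :
    Phi Q Y' k = Phi Q Y k + ((if k.isRight then -(Y k * c₀) else Y k * c₀) - c₀ * Y k) -
      if k = kc then c₀ * c₀ else 0 := by
  have hx : ∀ ε, Y' (.inl (.inl ε)) = Y (.inl (.inl ε)) := fun ε => h _ (by simp)
  have ha : ∀ b, Y' (.inl (.inr b)) = Y (.inl (.inr b)) := fun ε => h _ (by simp)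
  have ht : ∀ ε, Y' (.inr (.inl ε)) = Y (.inr (.inl ε)) := fun ε => h _ (by simp)
  have he : Y' (.inr (.inr false)) = Y (.inr (.inr false)) := h _ (by simp)
  rcases k with (ε | _ | _) | (ε | _ | _) <;>
    simp only [Phi, hx, ha, ht, he, hc, Sum.isRight_inl, Sum.isRight_inr, Bool.false_eq_true,
      if_true, if_false, reduceCtorEq, Sum.inr.injEq, mul_add, add_mul] <;> abel

theorem delta_step [Algebra ℂ A] {ι : Type} [Fintype ι] {r V V' g ρ d d' : A} {L c e : ι → ι → A}
    {s : ℂ} (h1 : V * g - s • (g * V) = d) (h2 : ∀ a b, L a b * g - g * L a b = e a b)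
    (h3 : V' * ρ - s • (ρ * V') = d') (h4 : ∀ a b, c a b * ρ = s • (ρ * c a b))
    (h5 : r * g = ρ * r) (h6 : r * d + ∑ a, ∑ b, c a b * (r * e a b) = d' * r) :
    (r * V + ∑ a, ∑ b, c a b * (r * L a b) - V' * r) * g =
      (s • ρ) * (r * V + ∑ a, ∑ b, c a b * (r * L a b) - V' * r) := by
  have a1 : r * V * g = s • ρ * (r * V) + r * d := by
    rw [← h1, mul_sub, mul_smul_comm, ← mul_assoc r g, h5, smul_mul_assoc, mul_assoc,
      mul_assoc]
    abel
  have a2 : ∀ a b, c a b * (r * L a b) * g = s • ρ * (c a b * (r * L a b)) + c a b * (r * e a b) := by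
    intro a b
    rw [← h2, mul_sub, mul_sub, ← mul_assoc r g, h5, mul_assoc ρ, ← mul_assoc (c a b) ρ, h4]
    simp only [smul_mul_assoc, mul_assoc]
    abel
  have a3 : V' * r * g = s • ρ * (V' * r) + d' * r := by
    rw [← h3, mul_assoc, h5, sub_mul]
    simp only [smul_mul_assoc, mul_assoc]
    abel
  rw [sub_mul, add_mul, a1, a3, ← h6, sum_mul, mul_sub, mul_add, mul_sum]
  simp only [sum_mul, a2, sum_add_distrib, mul_sum]
  abel

end Ring

end Pool.Agent.MP_8be872_ag.H57
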