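import Pool.Agent.MP_8be872_ag.H57.SlA

/-! Restriction to the slice: the exact intertwining identity. -/

namespace Pool.Agent.MP_8be872_ag.H57

open Finset H38 H56 H63 MvPolynomial
open scoped Matrix

section MW

variable {E O N ι : Type} [Fintype E] [Fintype O] [DecidableEq E] [DecidableEq O] [Fintype N]
  [DecidableEq N] {vt : N → ι} {a b c : Bool} {M M' : Matrix N N (Module.End ℂ (Sp E O))}

variable (vt) in
/-- Matrices with entries of parity `a` that preserve the vertices. -/
def MW (a : Bool) (M : Matrix N N (Module.End ℂ (Sp E O))) : Prop :=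
  ∀ p q, M p q ∈ words fun μ => od μ = a ∧ vt p = vt q

omit [DecidableEq N] in
theorem MW.mul (h : MW vt a M) (h' : MW vt b M') (e : xor a b = c) : MW vt c (M * M') := by
  intro p q
  rw [Matrix.mul_apply]
  exact Submodule.sum_mem _ fun r _ => mul_mem_words (h p r) (h' r q) fun _ _ a b =>
    ⟨by rw [od_add, a.1, b.1, e], a.2.trans b.2⟩

theorem MW.pow (h : MW vt false M) (n : ℕ) : MW vt false (M ^ n) := by
  induction n with
  | zero =>
    intro p q
    rw [pow_zero, Matrix.one_apply]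
    split_ifs with a
    · exact one_mem_words ⟨od_zero, by rw [a]⟩
    · exact zero_mem _
  | succ n ih =>
    rw [pow_succ]
    exact ih.mul h rfl

theorem MW.geo {U : Matrix N N (Module.End ℂ (Sp E O))} (h : MW vt false M) (hU : MW vt true U)
    (h' : MW vt false M') (n : ℕ) : ∃ W, MW vt true (M * W * M') ∧
      ∑ i ∈ range (n + 1), M ^ i * U * M' ^ i - U = M * W * M' := by
  refine ⟨∑ i ∈ range n, M ^ i * U * M' ^ i, (h.mul (b := true) (fun p q => ?_) rfl).mul h' rfl, ?_⟩
  · rw [Matrix.sum_apply]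
    exact Submodule.sum_mem _ fun i _ => ((h.pow i).mul hU rfl).mul (h'.pow i) rfl p q
  · rw [sum_range_succ', pow_zero, pow_zero, one_mul, mul_one, add_sub_cancel_right,
      mul_sum, sum_mul]
    refine sum_congr rfl fun i _ => ?_
    rw [pow_succ', pow_succ]
    simp only [mul_assoc]

end MW

variable {Q : Quiv} {w v D : Fin Q.n → ℕ} {J : Type}

theorem ofM_gg {A : Type} (M : Kd Q → Nb Q w v D → Nb Q w v D → A) (t e : J → A) (k : Kd Q)
    (p q : Nb Q w v D) : ofM M t e (gg k p q) = M k p q := by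
  rcases k with k | k <;> rfl

theorem gg_right (k : Kd Q) (p q : Nb Q w v D) :
    (gg k p q : Ix Q w v D J ⊕ Ix Q w v D J).isRight = k.isRight := by
  rcases k with k | k <;> rfl

theorem gen_cases (g : Ix Q w v D J ⊕ Ix Q w v D J) :
    (∃ k p q, g = gg k p q) ∨ (∃ j, g = tv j) ∨ ∃ j, g = ev j := by
  rcases g with (⟨τ, p, q⟩ | j) | (⟨τ, p, q⟩ | j)
  exacts [.inl ⟨.inl τ, p, q, rfl⟩, .inr (.inl ⟨j, rfl⟩), .inl ⟨.inr τ, p, q, rfl⟩,
    .inr (.inr ⟨j, rfl⟩)]

theorem alg_cases {M : Kd Q → Nb Q w v D → Nb Q w v D → Prop} {g : Ix Q w v D J ⊕ Ix Q w v D J}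
    (h : ofM M ⊥ ⊥ g) : ∃ k p q, M k p q ∧ g = gg k p q := by
  rcases gen_cases g with ⟨k, p, q, rfl⟩ | ⟨j, rfl⟩ | ⟨j, rfl⟩
  · exact ⟨k, p, q, by rwa [ofM_gg] at h, rfl⟩
  · exact h.elim
  · exact h.elim

theorem shape_iff {R R' : Nb Q w v D → Nb Q w v D → Prop} {k : Kd Q} (hk : k ≠ kc)
    {p q : Nb Q w v D} : shape R k p q ↔ shape R' k p q := by
  rcases k with (ε | _ | _) | (ε | _ | _) <;> first | rfl | exact absurd rfl hk

theorem radF_blk {p q : Nb Q w v D} (h : shape radF kc p q) :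
    blk q ≠ 0 ∧ p ≠ q ∧ blk p ≤ blk q := by
  rcases h.2 with a | ⟨a, b, rfl, rfl, h'⟩
  · exact ⟨by omega, fun e => by simp [e] at a, a.le⟩
  · refine ⟨by simp [blk], fun e => ?_, le_rfl⟩
    obtain rfl : a = b := by simpa using e
    exact lt_irrefl _ h'

theorem shape_radP {k : Kd Q} {p q : Nb Q w v D} (h : shape radF k p q) : shape radP k p q := by
  by_cases hk : k = kc
  · subst hk
    exact ⟨h.1, fun a => absurd a (radF_blk h).1⟩
  · exact (shape_iff hk).1 h

theorem e0_alg {g : Ix Q w v D J ⊕ Ix Q w v D J} (h : E0G g) : AlG radF g := by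
  obtain ⟨k, p, q, a, rfl⟩ := alg_cases h.1
  have b := h.2
  rw [kind, ofM_gg] at b
  rw [AlG, ofM_gg]
  refine (shape_iff ?_).1 a
  rintro rfl
  simp [kdeg] at b

variable {d : Bas Q v → ℕ} {lab : Bas Q D → Bas Q v × ℕ}

theorem al0_shape (hl : IsLab d lab) {p q : Nb Q w v D} (h : al0 lab p q ≠ 0) :
    shape radF ka p q := by
  rcases q with τ | q
  · have h1 : hp lab p = some (lab τ) := by
      by_contra a
      simp [al0, a] at h
    rcases p with τ' | a | b
    · have h2 : (lab τ').1 = (lab τ).1 :=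
        (Prod.ext_iff.1 (Option.some.inj h1 : ((lab τ').1, (lab τ').2 + 1) = lab τ)).1
      exact ⟨⟨(hl.vert τ').symm.trans ((congrArg (·.1) h2).trans (hl.vert τ)), by simp [blk],
        by simp [blk]⟩, rfl⟩
    · have h2 : a = (lab τ).1 := congrArg Prod.fst (Option.some.inj h1)
      exact ⟨⟨(congrArg (·.1) h2).trans (hl.vert τ), by simp [blk], by simp [blk]⟩, rfl⟩
    · simp [hp] at h1
  · simp [al0] at h

section YS

variable {A : Type} [Ring A] [Algebra ℂ A] (y : Kd Q → Nb Q w v D → Nb Q w v D → A)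

open Classical in
variable (lab) in
/-- The free entries on the slice. -/
noncomputable def bs (k : Kd Q) : Matrix (Nb Q w v D) (Nb Q w v D) A :=
  fun p q => if shS lab k p q then y k p q else 0

theorem YS_ka : YS lab y ka = (al0 lab).map (algebraMap ℂ A) + bs lab y ka := by
  unfold YS
  dsimp only
  rw [if_pos rfl]
  rfl

theorem YS_kc : YS lab y kc = ∑ i ∈ range (Fintype.card (Bas Q D) + 1),
    ((al0 lab).map (algebraMap ℂ A))ᵀ ^ i * bs lab y kc * YS lab y ka ^ i := by
  rw [YS_ka]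
  unfold YS
  dsimp only
  rw [if_neg (by simp)]
  exact if_pos rfl

theorem YS_ne {k : Kd Q} (h : k ≠ ka) (h' : k ≠ kc) : YS lab y k = bs lab y k :=
  (if_neg h).trans (if_neg h')

omit [Algebra ℂ A] in
theorem bs_ne {k : Kd Q} (h : k ≠ ka) : bs lab y k = msk radF y k := by
  classical
  funext p q
  exact if_congr (and_iff_left fun a => absurd a h) rfl rfl

end YS

variable [Fintype J] [DecidableEq J]

variable (w J lab) in
/-- The matrices on the slice. -/
noncomputable abbrev Ys : Kd Q → Matrix (Nb Q w v D) (Nb Q w v D) (OpQ Q w v D J) :=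
  YS lab fun k p q => gn (gg k p q)

variable (w J lab) in
/-- The restrictions of the global matrices. -/
noncomputable def YR : Kd Q → Matrix (Nb Q w v D) (Nb Q w v D) (OpQ Q w v D J) :=
  msk radF fun k p q => rh (resS lab) (gg k p q)

variable (w J lab) in
/-- The compensating ghost. -/
noncomputable def c0 : Matrix (Nb Q w v D) (Nb Q w v D) (OpQ Q w v D J) :=
  Ys w J lab kc - Yg radF kc

theorem rh_gg {k : Kd Q} (hk : k ≠ ka) (p q : Nb Q w v D) :
    (rh (resS lab) (gg k p q) : OpQ Q w v D J) = gn (gg k p q) := by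
  rcases k with (ε | _ | _) | k
  · exact congrArg mul (aeval_X _ _)
  · exact congrArg mul (aeval_X _ _)
  · exact absurd rfl hk
  · rfl

open Classical in
theorem rh_ka (p q : Nb Q w v D) : (rh (resS lab) (gg ka p q) : OpQ Q w v D J) =
    if top lab p then gn (gg ka p q) else algebraMap ℂ _ (al0 lab p q) := by
  refine (congrArg mul (aeval_X _ _)).trans ?_
  dsimp only
  split_ifs
  · rfl
  · exact mul_C _

omit [Fintype J] [DecidableEq J] in
theorem resS_T (j : J) : resS (w := w) lab (X (.inr j)) = X (.inr j) := aeval_X _ _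

theorem rh_tv (j : J) : (rh (resS lab) (tv j) : OpQ Q w v D J) = gn (tv j) :=
  congrArg mul (resS_T j)

theorem res_dr (j : J) : (resO lab * dr (tv j) : OpQ Q w v D J) = dr (tv j) * resO lab := by
  refine Rs_dr (resS lab) _ fun e => ?_
  rw [pderiv_X, Pi.single_apply]
  rcases e with ⟨ε | _ | _, p, q⟩ | i
  · simp [resS]
  · simp [resS]
  · simp only [resS, aeval_X]
    split_ifs <;> simp_all
  · rw [resS_T, pderiv_X, Pi.single_apply]
    split_ifs <;> simp

theorem Ys_eq (hl : IsLab d lab) {k : Kd Q} (hk : k ≠ kc) : Ys w J lab k = YR w J lab k := by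
  by_cases ha : k = ka
  · subst ha
    funext p q
    rw [Ys, YS_ka, Matrix.add_apply, Matrix.map_apply, bs, YR, msk, rh_ka]
    by_cases h1 : shape radF ka p q
    · rw [if_pos h1]
      by_cases h2 : top lab p
      · rw [if_pos ⟨h1, fun _ => h2⟩, if_pos h2, h2 q, map_zero, zero_add]
      · rw [if_neg fun a => h2 (a.2 rfl), if_neg h2, add_zero]
    · have : al0 lab p q = 0 := of_not_not fun a => h1 (al0_shape hl a)
      rw [if_neg h1, if_neg fun a => h1 a.1, this, map_zero, add_zero]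
  · rw [Ys, YS_ne _ ha hk, bs_ne _ ha]
    funext p q
    rw [YR, msk, msk, rh_gg ha]

theorem YR_kc : YR w J lab kc = Yg radF kc := by
  funext p q
  simp only [YR, Yg, msk, rh_gg (show (kc : Kd Q) ≠ ka by simp)]

theorem res_Yg (k : Kd Q) (p q : Nb Q w v D) :
    resO lab * Yg (J := J) radF k p q = YR w J lab k p q * resO lab := by
  simp only [YR, Yg, msk]
  split_ifs
  · exact Rs_gn _ _
  · simp

theorem alg_mem {P : (Ix Q w v D J ⊕ Ix Q w v D J → ℕ) → Prop} {s : ℂ} (h : s ≠ 0 → P 0) :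
    algebraMap ℂ (OpQ Q w v D J) s ∈ words P := by
  by_cases a : s = 0
  · rw [a, map_zero]
    exact zero_mem _
  · rw [Algebra.algebraMap_eq_smul_one]
    exact Submodule.smul_mem _ _ (one_mem_words (h a))

theorem YR_od (k : Kd Q) (p q : Nb Q w v D) :
    YR w J lab k p q ∈ words fun μ => od μ = k.isRight ∧ shape radF k p q := by
  simp only [YR, msk]
  split_ifs with a
  · exact words_le (fun _ b => ⟨b.trans (gg_right ..), a⟩) (rh_od _ _)
  · exact zero_mem _

theorem Yg_od (R : Nb Q w v D → Nb Q w v D → Prop) (k : Kd Q) (p q : Nb Q w v D) :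
    Yg (J := J) R k p q ∈ words fun μ => od μ = k.isRight := by
  simp only [Yg, msk]
  split_ifs with a
  · exact gn_mem_words ((od_single _).trans (gg_right ..))
  · exact zero_mem _

theorem c0_spec (hl : IsLab d lab) : MW vx true (c0 w J lab) ∧
    ∀ p q, blk p ≠ 0 ∨ blk q ≠ 0 → c0 w J lab p q = 0 := by
  have m0 : MW vx false ((al0 (w := w) lab).map (algebraMap ℂ (OpQ Q w v D J)))ᵀ := fun p q =>
    alg_mem fun a => ⟨od_zero, (al0_shape hl a).1.1.symm⟩
  have m1 : MW vx false (YR w J lab ka) := fun p q =>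
    words_le (fun _ a => ⟨a.1, a.2.1.1⟩) (YR_od ka p q)
  have m2 : MW vx true (YR w J lab kc) := fun p q =>
    words_le (fun _ a => ⟨a.1, a.2.1.1⟩) (YR_od kc p q)
  obtain ⟨W, h1, h2⟩ := m0.geo m2 m1 (Fintype.card (Bas Q D))
  rw [← Ys_eq hl (k := ka) (by simp), YR_kc, Yg, ← bs_ne (lab := lab) _ (by simp), ← YS_kc,
    bs_ne _ (by simp), Ys_eq hl (k := ka) (by simp)] at h2
  rw [show c0 w J lab = _ from h2]
  refine ⟨h1, fun p q h => ?_⟩
  rcases h with h | h
  · rw [Matrix.mul_assoc, Matrix.mul_apply]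
    refine sum_eq_zero fun r _ => ?_
    have : al0 lab r p = 0 := of_not_not fun a => h (al0_shape hl a).2
    rw [Matrix.transpose_apply, Matrix.map_apply, this, map_zero, zero_mul]
  · rw [Matrix.mul_apply]
    refine sum_eq_zero fun r _ => ?_
    rw [words_false (YR_od ka r q) fun _ a => h a.2.2, mul_zero]

end Pool.Agent.MP_8be872_ag.H57
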