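import Pool.Agent.MP_8be872_ag.H57.SlB

/-! Restriction to the slice: the exact intertwining identity. -/

namespace Pool.Agent.MP_8be872_ag.H57

open Finset H38 H56 H63 MvPolynomial
open scoped Matrix

section Mat

variable {N A : Type} [Fintype N] [DecidableEq N] [Ring A]

/-- The commutator with a matrix unit. -/
def br (M : Matrix N N A) (a b : N) : Matrix N N A :=
  M * Matrix.single a b 1 - Matrix.single a b 1 * M

theorem br_apply (M : Matrix N N A) (a b p q : N) :
    br M a b p q = (if b = q then M p a else 0) - if a = p then M b q else 0 := by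
  rw [br, Matrix.sub_apply]
  congr 1
  · split_ifs with h
    · subst h
      simp
    · exact Matrix.mul_single_apply_of_ne _ _ _ _ _ (Ne.symm h) _
  · split_ifs with h
    · subst h
      simp
    · exact Matrix.single_mul_apply_of_ne _ _ _ _ _ (Ne.symm h) _

theorem sum_br [Algebra ℂ A] (M c : Matrix N N A) (s : Bool)
    (hc : ∀ a b p q, c a b * M p q = sg s • (M p q * c a b)) (p q : N) :
    ∑ a, ∑ b, c a b * br M a b p q = ((if s then -(M * c) else M * c) - c * M) p q := by
  simp only [br_apply, mul_sub, sum_sub_distrib, mul_ite, mul_zero, sum_ite_eq', mem_univ, if_true]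
  rw [sum_comm, Matrix.sub_apply]
  simp only [sum_ite_eq', mem_univ, if_true]
  congr 1
  simp only [hc]
  cases s
  · simp [sg, Matrix.mul_apply]
  · simp [sg, Matrix.mul_apply]

end Mat

variable {Q : Quiv} {w v D : Fin Q.n → ℕ} {J : Type} [Fintype J] [DecidableEq J]
  {d : Bas Q v → ℕ} {lab : Bas Q D → Bas Q v × ℕ}

/-- Allowed generators and the Čech variables. -/
def Alp (g : Ix Q w v D J ⊕ Ix Q w v D J) : Prop := AlG radF g ∨ ∃ j, g = tv j ∨ g = ev j

variable (J) in
/-- The values of the gauge action. -/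
noncomputable def lv' (R : Nb Q w v D → Nb Q w v D → Prop) (a b : Nb Q w v D) :
    Ix Q w v D J ⊕ Ix Q w v D J → OpQ Q w v D J :=
  ofM (msk R fun k => br (Yg R k) a b) 0 0

theorem lie_eq (R : Nb Q w v D → Nb Q w v D → Prop) (a b : Nb Q w v D) :
    lie R a b = vf (lv' J R a b) := rfl

open Classical in
theorem lv_gg (R : Nb Q w v D → Nb Q w v D → Prop) (a b : Nb Q w v D) (k : Kd Q)
    (p q : Nb Q w v D) :
    lv' J R a b (gg k p q) = if shape R k p q then br (Yg R k) a b p q else 0 := ofM_gg ..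

theorem dG_gg {R : Nb Q w v D → Nb Q w v D → Prop} {k : Kd Q} {p q : Nb Q w v D}
    (h : shape R k p q) : dG (J := J) R (gg k p q) = Phi Q (Yg R) k p q :=
  (ofM_gg (msk R (Phi Q (Yg R))) 0 0 k p q).trans (if_pos h)

theorem lv_od (R : Nb Q w v D → Nb Q w v D → Prop) (a b : Nb Q w v D)
    (g : Ix Q w v D J ⊕ Ix Q w v D J) :
    lv' J R a b g ∈ words fun μ => od μ = xor g.isRight false := by
  rcases gen_cases g with ⟨k, p, q, rfl⟩ | ⟨j, rfl⟩ | ⟨j, rfl⟩
  · rw [lv_gg, gg_right, Bool.xor_false]
    split_ifs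
    · rw [br_apply]
      refine sub_mem ?_ ?_ <;> split_ifs
      exacts [Yg_od R k _ _, zero_mem _, Yg_od R k _ _, zero_mem _]
    · exact zero_mem _
  · exact zero_mem _
  · exact zero_mem _

theorem pol_zero (P : (Ix Q w v D J ⊕ Ix Q w v D J → ℕ) → Prop) :
    (pol 0 : Sp (Ix Q w v D J) (Ix Q w v D J)) ∈ mono P := pol_mem.2 fun _ h => absurd rfl h

theorem goodG (h1 : Glob1At Q w v D J) : Good (AlG radF) (wt bw 0) (dG (w := w) (v := v) (D := D)
    (J := J) radF) 0 0 :=
  (h1.1 radF (.inr rfl)).1 0 0 fun _ => pol_zero _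

theorem goodS (hF : SlFAt Q w v D J) (hl : IsLab d lab) : Good (AlS lab)
    (wt (xs (Equiv.refl _) d lab) 0) (dS (w := w) (J := J) lab) (omS lab 0) 0 :=
  (hF (Equiv.refl _) d lab 0 hl (fun _ => rfl) fun _ _ _ => rfl).1 0 0 fun _ => pol_zero _

theorem c0_od (hl : IsLab d lab) (a b : Nb Q w v D) :
    c0 w J lab a b ∈ words fun μ => od μ = true :=
  words_le (fun _ h => h.1) ((c0_spec (J := J) hl).1 a b)

theorem phi_slice (hl : IsLab d lab) {k : Kd Q} {p q : Nb Q w v D} (h : shape radF k p q) :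
    Phi Q (Ys w J lab) k p q = Phi Q (YR w J lab) k p q +
      ∑ a, ∑ b, c0 w J lab a b * br (YR w J lab k) a b p q := by
  have h1 : ∀ a b p q, c0 w J lab a b * YR w J lab k p q =
      sg k.isRight • (YR w J lab k p q * c0 w J lab a b) := fun a b p q => by
    have := words_comm (c0_od (J := J) hl a b)
      (words_le (fun _ h => h.1) (YR_od (lab := lab) k p q))
    rwa [Bool.true_and] at this
  rw [phi_aff (YR w J lab) (Ys w J lab) (c0 w J lab) (fun _ => Ys_eq hl)
    (by rw [YR_kc, c0, add_sub_cancel]), sum_br _ _ k.isRight h1,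
    Matrix.sub_apply, Matrix.add_apply, sub_eq_self]
  split_ifs with hk
  · subst hk
    rw [Matrix.mul_apply]
    exact sum_eq_zero fun r _ => by rw [(c0_spec hl).2 r q (.inr (radF_blk h).1), mul_zero]
  · rfl

theorem rh_Ys (hl : IsLab d lab) {k : Kd Q} {p q : Nb Q w v D} (h : shape radF k p q) :
    rh (resS lab) (gg k p q) = Ys w J lab k p q := by
  have : YR w J lab k p q = rh (resS lab) (gg k p q) := if_pos h
  rw [← this]
  by_cases hk : k = kc
  · subst hk
    have := (c0_spec (J := J) hl).2 p q (.inr (radF_blk h).1)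
    rw [c0, Matrix.sub_apply, sub_eq_zero] at this
    rw [this, YR_kc]
  · rw [Ys_eq hl hk]

theorem star (hD : DSqStmt) (h1 : Glob1At Q w v D J) (hF : SlFAt Q w v D J) (hl : IsLab d lab)
    {x : Sp (Ix Q w v D J) (Ix Q w v D J)} (hx : x ∈ mono (sup Alp)) :
    vf (dS lab) (resO lab x) = resO lab (vf (dG radF) x) +
      ∑ a, ∑ b, c0 w J lab a b (resO lab (lie radF a b x)) := by
  have gG := goodG h1
  have gS := goodS hF hl
  have key := ker_ind (Δ := resO lab * vf (dG radF) + ∑ a, ∑ b, c0 w J lab a b *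
    (resO lab * lie radF a b) - vf (dS lab) * resO lab) ?_
    (fun g hg => ⟨sg (true && g.isRight) • rh (resS lab) g, ?_⟩) hx
  · rw [LinearMap.sub_apply, sub_eq_zero, LinearMap.add_apply, LinearMap.sum_apply] at key
    simp only [LinearMap.sum_apply] at key
    exact key.symm
  · have : resO (w := w) (J := J) lab one = one := Rs_one _
    simp only [LinearMap.sub_apply, LinearMap.add_apply, LinearMap.sum_apply, Module.End.mul_apply,
      lie_eq, this, vf_one, map_zero, sum_const_zero, add_zero, sub_zero]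
  · have a2 := fun a b => vf_gn (lv_od radF a b) g
    simp only [Bool.false_and, sg_false, one_smul] at a2
    have a4 := fun a b => words_comm (c0_od hl a b) (rh_od (resS lab) g)
    rcases hg with hg | ⟨j, rfl | rfl⟩
    · obtain ⟨k, p, q, hk, rfl⟩ := alg_cases hg
      refine delta_step (vf_gn gG.d_odd _) a2 (d' := Phi Q (Ys w J lab) k p q) ?_ a4 (Rs_gn _ _) ?_
      · have := (hF (Equiv.refl _) d lab 0 hl (fun _ => rfl) fun _ _ _ => rfl).2.2.2.2 k p q
          (shape_radP hk)
        rw [rh_Ys hl hk, gg_right, ← this]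
        cases k.isRight
        · rw [if_neg (by simp), Bool.and_false, sgF]
        · rw [if_pos rfl, Bool.and_true, sgT, sub_neg_eq_add]
      · rw [phi_slice hl hk, add_mul, dG_gg hk, phi_rel hD _ _ _ (res_Yg (lab := lab)), sum_mul]
        refine congrArg _ (sum_congr rfl fun a _ => ?_)
        rw [sum_mul]
        refine sum_congr rfl fun b _ => ?_
        rw [lv_gg, if_pos hk, mul_assoc, br_apply, br_apply, mul_sub (resO lab), sub_mul,
          mul_ite, mul_ite, ite_mul, ite_mul, res_Yg, res_Yg, mul_zero, zero_mul]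
    · refine delta_step (vf_gn gG.d_odd _) a2 (d' := 0) ?_ a4 (Rs_gn _ _) ?_
      · rw [rh_tv]
        exact vf_gn gS.d_odd _
      · simp only [dG, lv', ofM, Pi.zero_apply, mul_zero, sum_const_zero, add_zero, zero_mul]
    · refine delta_step (vf_gn gG.d_odd _) a2 (d' := 0) ?_ a4 (Rs_gn _ _) ?_
      · exact vf_gn gS.d_odd _
      · simp only [dG, lv', ofM, Pi.zero_apply, mul_zero, sum_const_zero, add_zero, zero_mul]

end Pool.Agent.MP_8be872_ag.H57
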