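import Pool.Agent.MP_8be872_ag.H57.SlC

/-! Restriction to the slice: weights, invariant functions and the torus action. -/

namespace Pool.Agent.MP_8be872_ag.H57

open Finset H38 H56 H63 MvPolynomial
open scoped Matrix

variable {Q : Quiv} {w v D : Fin Q.n → ℕ} {J : Type} {d : Bas Q v → ℕ}
  {lab : Bas Q D → Bas Q v × ℕ}

/-- The constant part of the weight of a kind. -/
noncomputable def cst : Kd Q → G
  | .inl (.inl ε) => arrWt Q ε
  | .inl (.inr true) => -qq
  | .inl (.inr false) => -hb - qq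
  | .inr (.inl ε) => arrWt Q ε - qq
  | .inr (.inr true) => 0
  | .inr (.inr false) => -hb

theorem wt_gg (x : Nb Q w v D → G) (φ : J → G) (k : Kd Q) (p q : Nb Q w v D) :
    wt x φ (gg k p q) = x q - x p - cst k := by
  rcases k with (ε | _ | _) | (ε | _ | _) <;> rfl

theorem free_cst (k : Kd Q) : free (cst k) := by
  intro i a
  change co (3 * Nat.pair i a + 4) (cst k) = 0
  have h0 : co (3 * Nat.pair i a + 4) qq = 0 := by simp [qq, co_gen]
  have h1 : co (3 * Nat.pair i a + 4) tau = 0 := by simp [tau, co_gen]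
  have h2 : ∀ e, co (3 * Nat.pair i a + 4) (tE e) = 0 := fun e => by
    rw [tE, co_gen, if_neg (by omega)]
  have h3 : ∀ ε, co (3 * Nat.pair i a + 4) (arrWt Q ε) = 0 := by
    rintro ⟨_ | e, _ | _⟩ <;> simp [arrWt, h1, h2]
  rcases k with (ε | _ | _) | (ε | _ | _) <;> simp [cst, hb, h0, h1, h3]

theorem wt_lam {σ : Bas Q v ≃ Bas Q v} {Λ : G →+ G} (h : LamOK (w := w) σ d lab Λ)
    (φ φ' : J → G) (k : Kd Q) (p q : Nb Q w v D) :
    wt (xs σ d lab) φ' (gg k p q) = Λ (wt bw φ (gg k p q)) := by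
  rw [wt_gg, wt_gg, map_sub, map_sub, h.bas, h.bas, h.fix _ (free_cst k)]

theorem wt_alg {M : Kd Q → Nb Q w v D → Nb Q w v D → Prop} {g : Ix Q w v D J ⊕ Ix Q w v D J}
    (h : ofM M ⊥ ⊥ g) (x : Nb Q w v D → G) (φ φ' : J → G) : wt x φ g = wt x φ' g := by
  obtain ⟨k, p, q, -, rfl⟩ := alg_cases h
  rw [wt_gg, wt_gg]

variable [Fintype J] [DecidableEq J]

theorem res_ZZ (hW : SlWAt Q w v D J) {σ Λ f f' φ φ' J₀ J₁ γ}
    (h : SlHyp Q w v D J σ d lab Λ f f' φ φ' J₀ J₁ γ) (s : Bool)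
    {x : Sp (Ix Q w v D J) (Ix Q w v D J)} (hx : x ∈ ZZ (AlG radF) (wt bw φ) J₀ J₁ γ s) :
    resO lab x ∈ ZZ (AlS lab) (wt (xs σ d lab) φ') J₀ J₁ (Λ γ) s := by
  refine Rs_mem (resS lab)
    (A := fun g => AlG radF g ∨ (∃ j ∈ J₀ ∪ J₁, g = tv j) ∨ ∃ j, g = ev j)
    (fun μ ν => (∀ g, ν g ≠ 0 → AlS lab g ∨ ((∃ j, g = tv j ∨ g = ev j) ∧ μ g ≠ 0)) ∧
      (∀ j, ν (ev j) = μ (ev j)) ∧ ws (wt (xs σ d lab) φ') ν = Λ (ws (wt bw φ) μ) ∧ od ν = od μ)
    ⟨fun _ a => absurd rfl a, fun _ => rfl, by rw [ws_zero, ws_zero, map_zero], rfl⟩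
    (fun a b a' b' h1 h2 => ⟨fun g hg => ?_, fun j => ?_, ?_, ?_⟩) (fun g hg => ?_)
    (fun μ a g hg => ?_) (fun μ ν a b => ⟨⟨fun g hg => ?_, fun j hj => ?_, ?_⟩, ?_, ?_⟩) hx
  · by_cases e : b g = 0
    · exact (h2.1 g (by simpa [e] using hg)).imp_right fun u => ⟨u.1, by simp [u.2]⟩
    · exact (h1.1 g e).imp_right fun u => ⟨u.1, by simp [u.2]⟩
  · rw [Pi.add_apply, Pi.add_apply, h1.2.1, h2.2.1]
  · rw [ws_add, ws_add, map_add, h1.2.2.1, h2.2.2.1]
  · rw [od_add, od_add, h1.2.2.2, h2.2.2.2]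
  · have k0 : (AlS lab g ∨ ∃ j, g = tv j ∨ g = ev j) →
        wt (xs σ d lab) φ' g = Λ (wt bw φ g) → rh (resS lab) g = gn g →
        (rh (resS lab) g : OpQ Q w v D J) ∈ words fun ν =>
          (∀ g', ν g' ≠ 0 → AlS lab g' ∨ ((∃ j, g' = tv j ∨ g' = ev j) ∧
            (Pi.single g 1 : _ → ℕ) g' ≠ 0)) ∧ (∀ j, ν (ev j) = (Pi.single g 1 : _ → ℕ) (ev j)) ∧
          ws (wt (xs σ d lab) φ') ν = Λ (ws (wt bw φ) (Pi.single g 1)) ∧
          od ν = od (Pi.single g 1) := fun a b c => by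
      rw [c]
      refine gn_mem_words ⟨fun g' e => ?_, fun _ => rfl, by rw [ws_single, ws_single, b], rfl⟩
      obtain rfl : g' = g := of_not_not fun u => e (Pi.single_eq_of_ne u _)
      exact a.imp_right fun u => ⟨u, e⟩
    rcases hg with hg | ⟨j, hj, rfl⟩ | ⟨j, rfl⟩
    · obtain ⟨k, p, q, hk, rfl⟩ := alg_cases hg
      by_cases ha : k = ka
      · subst ha
        have h1 := (hW σ d lab h.isLab h.vert).2.2.2.2 Λ h.lam (X (.inl (.inr true, p, q)))
          (wt bw (0 : J → G) (gg ka p q)) (by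
            rw [Homog, ← mul_one_eq]
            exact words_one_mem (gn_mem_words (g := gg ka p q)
              ⟨sup_single.2 ⟨hk, rfl⟩, ws_single _ _⟩))
        refine words_le (fun ν a => ⟨fun g' e => .inl (a.1.1 g' e).1, fun j => ?_, ?_, ?_⟩)
          (words_and (mul_mem_words_of_pol h1) (mul_mem_even _))
        · have e1 : ν (ev j) = 0 := of_not_not fun e => (a.1.1 (ev j) e).1.elim
          rw [e1, Pi.single_eq_of_ne (by simp [gg])]
        · rw [ws_single, wt_alg hg _ φ 0, ← a.1.2]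
          exact ws_congr fun g' e => wt_alg (a.1.1 g' e).1 ..
        · rw [a.2, od_single]
          rfl
      · exact k0 (.inl (by rw [AlS, ofM_gg]; exact ⟨hk, fun e => absurd e ha⟩))
          (wt_lam h.lam ..) (rh_gg ha p q)
    · refine k0 (.inr ⟨j, .inl rfl⟩) ?_ (rh_tv j)
      change -φ' j = Λ (-φ j)
      rw [map_neg, (h.res j hj).2]
    · exact k0 (.inr ⟨j, .inr rfl⟩) (map_zero Λ).symm rfl
  · rcases a.1.1 g hg with u | ⟨j, rfl, u⟩ | ⟨j, -, u⟩
    · exact .inl u
    · rcases a.1.1 _ u with u | ⟨i, u, -⟩ | ⟨i, hi, u⟩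
      · exact u.elim
      · simp at u
      · obtain rfl : j = i := by simpa using u
        exact .inr (.inl ⟨j, hi, rfl⟩)
    · exact .inr (.inr ⟨j, u⟩)
  · rcases b.1 g hg with u | ⟨⟨j, u⟩, e⟩
    · exact .inl u
    · rcases a.1.1 g e with u' | ⟨i, u', e'⟩ | u'
      · rcases u with rfl | rfl <;> exact u'.elim
      · exact .inr (.inl ⟨i, u', by rwa [b.2.1]⟩)
      · exact .inr (.inr u')
  · rw [b.2.1]
    exact a.1.2.1 j hj
  · exact a.1.2.2.imp fun j hj => by rwa [b.2.1]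
  · rw [b.2.2.1, a.2.1]
  · rw [b.2.2.2, a.2.2]

theorem c0_supp (hl : IsLab d lab) {a b : Nb Q w v D} (h : c0 w J lab a b ≠ 0) :
    blk a = 0 ∧ blk b = 0 ∧ vx a = vx b :=
  ⟨of_not_not fun e => h ((c0_spec hl).2 a b (.inl e)),
    of_not_not fun e => h ((c0_spec hl).2 a b (.inr e)),
    of_not_not fun e => h (words_false ((c0_spec hl).1 a b) fun _ u => e u.2)⟩

theorem lie_diag (h2 : Glob2At Q w v D J) {F : MvPolynomial (Ix Q w v D J) ℂ} {ψ : G}
    (hH : Homog F ψ) {a : Nb Q w v D} (ha : blk a = 0) :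
    lie radF a a (pol F) = (xi a ψ : ℂ) • pol F :=
  h2.diag radF a ψ (by omega) _ (mono_le (fun _ b =>
    (ws_congr fun g e => if_pos (e0_alg (b.1 g e))).trans b.2) hH)

theorem part2 (hD : DSqStmt) (h1 : Glob1At Q w v D J) (h2 : Glob2At Q w v D J)
    (hF : SlFAt Q w v D J) {F : MvPolynomial (Ix Q w v D J) ℂ} {ψ : G} (hl : IsLab d lab)
    (hH : Homog F ψ) (hx : ∀ τ, xi (.inl τ : Nb Q w v D) ψ = 0)
    (hi : ∀ a b : Nb Q w v D, a ≠ b → arrow (.inr true) a b → blk a ≤ blk b →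
      lie rad a b (pol F) = 0) :
    vf (dS lab) * mul (resS lab F) = mul (resS lab F) * vf (dS lab) := by
  have hE : (pol F : Sp (Ix Q w v D J) (Ix Q w v D J)) ∈ mono (sup E0G) :=
    mono_le (fun _ a => a.1) hH
  have a1 : vf (dG radF) (pol F) = 0 := by
    have := congrArg (· one) (h2.dpol radF F hE)
    simp only [LinearMap.sub_apply, Module.End.mul_apply, vf_one, map_zero, sub_zero, mul_one_eq,
      LinearMap.sum_apply, lie_eq] at this
    rw [this]
    refine sum_eq_zero fun a _ => sum_eq_zero fun b _ => ?_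
    by_cases hs : shape radF kc a b
    · rw [← lie_eq, h2.onPol radF rad a b F hE, hi a b (radF_blk hs).2.1 hs.1 (radF_blk hs).2.2,
        map_zero]
    · rw [show Yg radF kc a b = 0 from if_neg hs, LinearMap.zero_apply]
  rw [vf_mul_comm_iff fun g => words_le (fun _ _ => trivial) ((goodS hF hl).d_odd g),
    ← Rs_pol (resS lab)]
  refine (star hD h1 hF hl (mono_le (fun _ a g e => .inl (e0_alg (a g e))) hE)).trans ?_
  rw [a1, map_zero, zero_add]
  refine sum_eq_zero fun a _ => sum_eq_zero fun b _ => ?_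
  by_cases hc : c0 w J lab a b = 0
  · rw [hc, LinearMap.zero_apply]
  · obtain ⟨u1, u2, u3⟩ := c0_supp hl hc
    suffices lie radF a b (pol F) = 0 by rw [this, map_zero, map_zero]
    by_cases e : a = b
    · subst e
      rw [lie_diag h2 hH u1]
      rcases a with τ | a | a
      · rw [hx, Int.cast_zero, zero_smul]
      · simp [blk] at u1
      · simp [blk] at u1
    · rw [h2.onPol radF rad a b F hE]
      exact hi a b e ⟨u3, by omega, by omega⟩ (by omega)

theorem key_u (hD : DSqStmt) (h1 : Glob1At Q w v D J) (h2 : Glob2At Q w v D J)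
    (hF : SlFAt Q w v D J) {F : MvPolynomial (Ix Q w v D J) ℂ} {ψ : G} (hl : IsLab d lab)
    (hs : SemiT F ψ) {y : Sp (Ix Q w v D J) (Ix Q w v D J)} (hy : y ∈ mono (sup Alp)) :
    resO lab ((vf (dG radF) * mul F - mul F * vf (dG radF) : OpQ Q w v D J) y) =
      (vf (dS lab) * mul (resS lab F) - mul (resS lab F) * vf (dS lab) : OpQ Q w v D J)
        (resO lab y) -
        ∑ a, (xi a ψ : ℂ) • c0 w J lab a a (mul (resS lab F) (resO lab y)) := by
  have r1 : ∀ z, resO lab (mul F z) = mul (resS lab F) (resO lab z) := fun z =>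
    congrArg (· z) (Rs_mul (resS lab) F)
  have a1 := star hD h1 hF hl hy
  have a2 := star hD h1 hF hl (x := mul F y) (words_apply_mem (mul_mem_words_of_pol hs.1) hy
    fun _ _ u u' => H63.sup_add.2 ⟨fun g e => .inl (e0_alg (u.1 g e)), u'⟩)
  have a3 : ∀ a b, c0 w J lab a b (resO lab (lie radF a b (mul F y))) =
      mul (resS lab F) (c0 w J lab a b (resO lab (lie radF a b y))) +
        if a = b then (xi a ψ : ℂ) • c0 w J lab a a (mul (resS lab F) (resO lab y)) else 0 := by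
    intro a b
    by_cases hc : c0 w J lab a b = 0
    · split_ifs with e
      · subst e
        simp [hc]
      · simp [hc]
    obtain ⟨u1, u2, u3⟩ := c0_supp hl hc
    have hδ := fun g => words_le (fun _ _ => trivial) (lv_od (J := J) radF a b g)
    have c1 := congrArg (· (resO lab (lie radF a b y))) (mul_comm_words (resS lab F) (c0_od hl a b))
    simp only [Module.End.mul_apply] at c1
    rw [c1, ← r1]
    split_ifs with e
    · subst e
      have := congrArg (· y) (vf_eig hδ F _ (lie_diag h2 hs.1 u1))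
      simp only [Module.End.mul_apply, LinearMap.add_apply, LinearMap.smul_apply] at this
      rw [lie_eq, this, map_add, map_add, map_smul, map_smul, r1 y]
    · have := congrArg (· y) (vf_eig hδ F 0 (by
        rw [zero_smul]
        exact hs.2.2 a b ⟨e, u3, u1, u2⟩))
      simp only [Module.End.mul_apply, zero_smul, add_zero] at this
      rw [lie_eq, this, add_zero]
  simp only [a3, sum_add_distrib, sum_ite_eq, mem_univ, if_true, r1] at a2
  simp only [LinearMap.sub_apply, Module.End.mul_apply, map_sub, r1, a1, a2, map_add, map_sum]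
  abel

theorem lie_ZZ (h2 : Glob2At Q w v D J) {φ : J → G} {J₀ J₁ : Finset J} {γ : G} {s : Bool}
    {x : Sp (Ix Q w v D J) (Ix Q w v D J)} (hx : x ∈ ZZ (AlG radF) (wt bw φ) J₀ J₁ γ s)
    {a : Nb Q w v D} (ha : blk a = 0) : lie radF a a x =
      (xi a γ : ℂ) • x + ∑ j, (xi a (φ j) : ℂ) • gn (tv j) (dr (tv j) x) := by
  have key := map_mem_of_bas (C := ⊥) (L := (lie radF a a - ((xi a γ : ℂ) • 1 +
    ∑ j, (xi a (φ j) : ℂ) • (gn (tv j) * dr (tv j))) : OpQ Q w v D J)) (fun S m u => ?_) hx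
  · rw [Submodule.mem_bot, LinearMap.sub_apply, sub_eq_zero, LinearMap.add_apply,
      LinearMap.sum_apply] at key
    exact key
  have hw : ws (fun g => open Classical in if AlG radF g then wt bw (0 : J → G) g else 0)
      (ex S m) = γ + ∑ j, m (.inr j) • φ j := by
    rw [ws_congr (c' := wt bw φ + Sum.elim (Sum.elim (fun _ => 0) φ) fun _ => 0) fun g e => ?_, ← u.2.1]
    · simp only [ws, Pi.add_apply, nsmul_add, sum_add_distrib]
      congr 1
      simp [Fintype.sum_sum_type, ex]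
    · rcases u.1.1 g e with b | ⟨j, rfl, -⟩ | ⟨j, -, rfl⟩
      · rw [if_pos b, wt_alg b _ 0 φ]
        obtain ⟨k, p, q, -, rfl⟩ := alg_cases b
        rcases k with k | k <;> exact (add_zero _).symm
      · exact (if_neg id).trans (neg_add_cancel _).symm
      · exact (if_neg id).trans (add_zero _).symm
  rw [Submodule.mem_bot, LinearMap.sub_apply, sub_eq_zero, LinearMap.add_apply,
    LinearMap.sum_apply, h2.diag radF a _ (by omega) _ (bas_mem hw)]
  simp only [LinearMap.smul_apply, Module.End.mul_apply, euler_bas, Module.End.one_apply,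
    smul_smul, ← sum_smul, ← add_smul, map_add, map_sum, map_nsmul]
  congr 1
  simp only [nsmul_eq_mul]
  push_cast
  simp only [mul_comm]

end Pool.Agent.MP_8be872_ag.H57
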