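import Pool.Agent.MP_8be872_ag.H57.SlD

/-! Module Sl1: restriction to the slice is a chain map. -/

namespace Pool.Agent.MP_8be872_ag.H57

open Finset H38 H56 H63 MvPolynomial
open scoped Matrix

section Abs

variable {E O J : Type} [Fintype E] [Fintype O] [Fintype J] [DecidableEq E] [DecidableEq O]
  [DecidableEq J] {Al : Gn E O J → Prop} {J₀ J₁ : Finset J} {x : Sp (E ⊕ J) (O ⊕ J)}

omit [DecidableEq E] in
theorem Dloc_apply (δ : Gn E O J → Op E O J) (ω : Op E O J) (f : J → MvPolynomial (E ⊕ J) ℂ)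
    (A : Finset J) (x : Sp (E ⊕ J) (O ⊕ J)) : Dloc δ ω f A x = vf δ x - ∑ j, gn (tv j) (gn (tv j)
      ((vf δ * mul (f j) - mul (f j) * vf δ : Op E O J) (dr (tv j) x))) + ω x +
        ∑ j ∈ A, gn (ev j) x := by
  simp only [Dloc, LinearMap.add_apply, LinearMap.sub_apply (vf δ), LinearMap.sum_apply]
  rfl

omit [Fintype E] [Fintype O] [Fintype J] [DecidableEq E] [DecidableEq O] in
theorem cech_pat (hE : ∀ j, ¬ Al (ev j)) {μ : Gn E O J → ℕ} (a : cech Al J₀ J₁ μ) :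
    pat (J₀ ∪ J₁) μ := by
  intro j e
  rcases a.1 _ e with u | ⟨i, u, -⟩ | ⟨i, hi, u⟩
  · exact absurd u (hE j)
  · simp at u
  · obtain rfl : j = i := by simpa using u
    exact hi

theorem dr_cech (hT : ∀ j, ¬ Al (tv j)) (hx : x ∈ mono (cech Al J₀ J₁)) (j : J) :
    dr (tv j) x ∈ mono fun μ => cech Al J₀ J₁ μ ∧ μ (ev j) ≠ 0 := by
  refine dr_mem _ hx fun μ a => ?_
  have a1 := cech_down a fun i => Pi.single_eq_of_ne (by simp) _
  refine ⟨a1.1, ?_⟩
  rcases a1.2 (tv j) (by simp) with u | ⟨i, u, e⟩ | ⟨i, -, u⟩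
  · exact absurd u (hT j)
  · obtain rfl : j = i := by simpa using u
    exact e
  · simp at u

theorem tt_rel (f : J → MvPolynomial (E ⊕ J) ℂ) (j : J) (hx : x ∈ mono fun μ => μ (ev j) ≠ 0) :
    gn (tv j) (gn (tv j) (mul (f j) x)) - gn (tv j) x ∈ rel f := by
  rw [← map_sub]
  refine words_rel (gn_od _) ?_
  have e : gn (tv j) (mul (f j) x) - x = mul (f j * X (.inr j) - 1) x := by
    funext S
    change X (.inr j) * (f j * x S) - x S = (f j * X (.inr j) - 1) * x S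
    ring
  rw [e]
  exact rel_gen j hx

theorem tv_comm {P : (Gn E O J → ℕ) → Prop} {m : Op E O J} (hm : m ∈ words P) (j : J)
    (z : Sp (E ⊕ J) (O ⊕ J)) : gn (tv j) (m z) = m (gn (tv j) z) := by
  rw [← Module.End.mul_apply, ← Module.End.mul_apply, show gn (tv j) = mul (X (.inr j)) from rfl,
    mul_comm_words _ hm]

end Abs

theorem diff_alg {M ι J : Type} [AddCommGroup M] [Module ℂ M] [Fintype ι] [DecidableEq ι]
    [Fintype J] (c : ι → ι → Module.End ℂ M) (T : J → Module.End ℂ M) (u z : J → M) (l : ι → ι → M)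
    (s : ι → ℂ) (t : ι → J → ℂ) (p r e : M) (hc : ∀ a j y, T j (c a a y) = c a a (T j y)) :
    p - ∑ j, T j (T j (u j - ∑ a, t a j • c a a (z j))) + e -
      (p + ∑ a, ∑ b, c a b (l a b) - ∑ j, T j (T j (u j)) + (-∑ a, s a • c a a) r + e) =
    ∑ a, ∑ b, c a b ((if a = b then s a • r + ∑ j, t a j • T j (T j (z j)) else 0) - l a b) := by
  simp only [map_sub, sum_sub_distrib, apply_ite (c _ _), map_zero, sum_ite_eq,
    mem_univ, if_true, map_add, map_sum, map_smul, sum_add_distrib, hc, LinearMap.neg_apply,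
    LinearMap.sum_apply, LinearMap.smul_apply]
  rw [sum_comm (f := fun a j => t a j • c a a (T j (T j (z j))))]
  abel

variable {Q : Quiv} {w v D : Fin Q.n → ℕ} {J : Type} {d : Bas Q v → ℕ}
  {lab : Bas Q D → Bas Q v × ℕ} [Fintype J] [DecidableEq J]

theorem om_eq (hl : IsLab d lab) (γ : G) :
    omS (J := J) lab (fun τ => xi (.inl τ : Nb Q w v D) γ) =
      -∑ a, (xi a γ : ℂ) • c0 w J lab a a := by
  have h1 : ∀ τ, c0 w J lab (.inl τ) (.inl τ) = Ys w J lab kc (.inl τ) (.inl τ) := fun τ => by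
    rw [c0, Matrix.sub_apply, show Yg radF kc (.inl τ) (.inl τ) = 0 from
      if_neg fun a => (radF_blk a).1 rfl, sub_zero]
  have h2 : ∀ a, c0 w J lab (.inr a) (.inr a) = 0 := fun a =>
    (c0_spec hl).2 _ _ (.inl (by rcases a with a | a <;> simp [blk]))
  rw [Fintype.sum_sum_type]
  simp only [h1, h2, smul_zero, sum_const_zero, add_zero]
  rfl

theorem res_tv (j : J) (z : Sp (Ix Q w v D J) (Ix Q w v D J)) :
    resO lab (gn (tv j) z) = gn (tv j) (resO lab z) :=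
  (congrArg (· z) (Rs_gn (resS lab) (tv j))).trans (by rw [rh_tv]; rfl)

theorem res_ev (j : J) (z : Sp (Ix Q w v D J) (Ix Q w v D J)) :
    resO lab (gn (ev j) z) = gn (ev j) (resO lab z) := congrArg (· z) (Rs_gn (resS lab) (ev j))

omit [Fintype J] in
theorem cech_alp {J₀ J₁ : Finset J} {μ : Ix Q w v D J ⊕ Ix Q w v D J → ℕ}
    (a : cech (AlG radF) J₀ J₁ μ) : sup Alp μ := fun g e => (a.1 g e).imp_right fun u =>
  u.elim (fun ⟨j, u, _⟩ => ⟨j, .inl u⟩) fun ⟨j, _, u⟩ => ⟨j, .inr u⟩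

theorem key_j (hD : DSqStmt) (h1 : Glob1At Q w v D J) (h2 : Glob2At Q w v D J)
    (hF : SlFAt Q w v D J) {σ Λ f f' φ φ' J₀ J₁ γ}
    (h : SlHyp Q w v D J σ d lab Λ f f' φ φ' J₀ J₁ γ)
    {x : Sp (Ix Q w v D J) (Ix Q w v D J)} (hx : x ∈ mono (cech (AlG radF) J₀ J₁)) (j : J) :
    resO lab ((vf (dG radF) * mul (f j) - mul (f j) * vf (dG radF) : OpQ Q w v D J)
      (dr (tv j) x)) = (vf (dS lab) * mul (f' j) - mul (f' j) * vf (dS lab) : OpQ Q w v D J)
        (resO lab (dr (tv j) x)) -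
        ∑ a, (xi a (φ j) : ℂ) • c0 w J lab a a (mul (f' j) (resO lab (dr (tv j) x))) := by
  have hy := dr_cech (fun _ => id) hx j
  by_cases hj : j ∈ J₀ ∪ J₁
  · rw [(h.res j hj).1]
    exact key_u hD h1 h2 hF h.isLab (h.semi j) (mono_le (fun _ a => cech_alp a.1) hy)
  · rw [eq_zero_of_mem_mono hy hy fun _ a _ => hj (cech_pat (fun _ => id) a.1 j a.2)]
    simp only [map_zero, smul_zero, sum_const_zero, sub_zero]

theorem diff_eq (hD : DSqStmt) (h1 : Glob1At Q w v D J) (h2 : Glob2At Q w v D J)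
    (hF : SlFAt Q w v D J) {σ Λ f f' φ φ' J₀ J₁ γ}
    (h : SlHyp Q w v D J σ d lab Λ f f' φ φ' J₀ J₁ γ)
    {x : Sp (Ix Q w v D J) (Ix Q w v D J)} (hx : x ∈ mono (cech (AlG radF) J₀ J₁)) :
    resO lab (Dloc (dG radF) 0 f J₁ x) -
      Dloc (dS lab) (omS lab fun τ => xi (.inl τ : Nb Q w v D) γ) f' J₁ (resO lab x) =
      ∑ a, ∑ b, c0 w J lab a b ((if a = b then (xi a γ : ℂ) • resO lab x + ∑ j, (xi a (φ j) : ℂ) •
        gn (tv j) (gn (tv j) (mul (f' j) (resO lab (dr (tv j) x)))) else 0) -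
          resO lab (lie radF a b x)) := by
  have hl := h.isLab
  have rd : ∀ j, dr (tv j) (resO lab x) = resO lab (dr (tv j) x) := fun j =>
    (LinearMap.congr_fun (res_dr (lab := lab) j) x).symm
  have ku := key_j hD h1 h2 hF h hx
  rw [Dloc_apply, Dloc_apply, om_eq hl, star hD h1 hF hl (mono_le (fun _ => cech_alp) hx),
    LinearMap.zero_apply, add_zero, map_add, map_sub, map_sum, map_sum]
  simp only [res_tv, res_ev, rd, ku]
  have := diff_alg (c0 w J lab) (fun j => gn (tv j)) (fun j => (vf (dS lab) * mul (f' j) -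
      mul (f' j) * vf (dS lab) : OpQ Q w v D J) (resO lab (dr (tv j) x)))
    (fun j => mul (f' j) (resO lab (dr (tv j) x))) (fun a b => resO lab (lie radF a b x))
    (fun a => xi a γ) (fun a j => xi a (φ j)) (resO lab (vf (dG radF) x)) (resO lab x)
    (∑ j ∈ J₁, gn (ev j) (resO lab x)) fun a => tv_comm (c0_od hl a a)
  exact this

theorem part1c (hD : DSqStmt) (h1 : Glob1At Q w v D J) (h2 : Glob2At Q w v D J)
    (hF : SlFAt Q w v D J) {σ Λ f f' φ φ' J₀ J₁ γ}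
    (h : SlHyp Q w v D J σ d lab Λ f f' φ φ' J₀ J₁ γ) (s : Bool)
    {x : Sp (Ix Q w v D J) (Ix Q w v D J)} (hx : x ∈ ZZ (AlG radF) (wt bw φ) J₀ J₁ γ s)
    (hI : x ∈ InvT f) : resO lab (Dloc (dG radF) 0 f J₁ x) -
      Dloc (dS lab) (omS lab fun τ => xi (.inl τ : Nb Q w v D) γ) f' J₁ (resO lab x) ∈ rel f' := by
  have hl := h.isLab
  have hx' : x ∈ mono (cech (AlG radF) J₀ J₁) := mono_le (fun _ a => a.1) hx
  rw [diff_eq hD h1 h2 hF h hx']
  refine Submodule.sum_mem _ fun a _ => Submodule.sum_mem _ fun b _ => ?_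
  by_cases e0 : c0 w J lab a b = 0
  · rw [e0]
    exact zero_mem _
  obtain ⟨u1, u2, u3⟩ := c0_supp hl e0
  refine words_rel (c0_od hl a b) ?_
  split_ifs with e
  · subst e
    rw [lie_ZZ h2 hx u1, map_add, map_smul, map_sum, add_sub_add_left_eq_sub, ← sum_sub_distrib]
    refine Submodule.sum_mem _ fun j _ => ?_
    rw [map_smul, ← smul_sub, res_tv]
    exact Submodule.smul_mem _ _ (tt_rel f' j (Rs_odd (resS lab) (fun _ _ _ a => a)
      (mono_le (P' := fun μ => μ (ev j) ≠ 0) (fun _ a => a.2) (dr_cech (fun _ => id) hx' j))))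
  · rw [zero_sub]
    refine neg_mem (Rs_rel (resS lab) resS_T (fun j hj => (h.res j hj).1) ?_ ?_)
    · obtain ⟨δ, e1, -, e2⟩ := h2.val radF a b
      rw [e1]
      refine vf_mem e2 hx' fun g μ ν u ⟨k, p, q, p', q', _, e3, _⟩ j e =>
        cech_pat (fun _ => id) u j ?_
      rw [e3, Pi.add_apply, Pi.single_eq_of_ne (by rcases k with k | k <;> simp [gg]),
        zero_add] at e
      simp [e]
    · simp only [InvT, Submodule.mem_iInf, Submodule.mem_comap] at hI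
      exact hI a b ⟨e, u3, u1, u2⟩

/-- Module Sl1. -/
theorem sl1 : DSqStmt → Glob1Stmt → Glob2Stmt → SlFStmt → SlWStmt → Sl1Stmt := by
  intro hD h1 h2 hF hW Q w v D J _ _
  exact ⟨fun σ d lab Λ f f' φ φ' J₀ J₁ γ h s x hx => ⟨res_ZZ (hW Q w v D J) h s hx,
    Rs_rel (resS lab) resS_T (fun j hj => (h.res j hj).1)
      (mono_le (fun _ u => cech_pat (fun _ => id) u.1) hx),
    part1c hD (h1 Q w v D J) (h2 Q w v D J) (hF Q w v D J) h s hx⟩,
    fun d lab F ψ => part2 hD (h1 Q w v D J) (h2 Q w v D J) (hF Q w v D J)⟩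

end Pool.Agent.MP_8be872_ag.H57
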